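import Pool.Agent.N594.CT.Stm3
import Pool.Agent.N442.ES.Cnt

/-!
# Many sequences of six vertices without four independent ones (part P6 of project CT, helper490)
-/

set_option autoImplicit false

open Finset
open scoped Classical

namespace Pool.Agent.N490.CT.P6

open Pool.Agent.N594.CT Pool.Agent.N442.ES

/-- the copy on `Fin n` of a 3-graph -/
noncomputable def DD {V : Type} {n : ℕ} (e : V ≃ Fin n) (H : Finset V → Prop) :
    Finset (Finset (Fin n)) := univ.filter fun Z => H (Z.image e.symm)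

theorem mem_DD {V : Type} {n : ℕ} (e : V ≃ Fin n) (H : Finset V → Prop) (Z : Finset (Fin n)) :
    Z ∈ DD e H ↔ H (Z.image e.symm) := by
  unfold DD
  rw [mem_filter]
  exact ⟨fun h => h.2, fun h => ⟨mem_univ _, h⟩⟩

theorem DD_card {V : Type} {n : ℕ} (e : V ≃ Fin n) {H : Finset V → Prop} (hH : Unif 3 H)
    {Z : Finset (Fin n)} (hZ : Z ∈ DD e H) : Z.card = 3 := by
  have h1 := hH _ ((mem_DD e H Z).1 hZ)
  rwa [card_image_of_injective _ e.symm.injective] at h1

theorem E_le {V : Type} [Fintype V] {n : ℕ} (e : V ≃ Fin n) {H : Finset V → Prop}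
    (hH : Unif 3 H) : E 3 H ≤ 6 * (DD e H).card := by
  have h1 := QR_card 3 (DD e H) (fun Z hZ => DD_card e hH hZ)
  have h6 : Nat.factorial 3 = 6 := rfl
  rw [h6] at h1
  rw [← h1]
  unfold E
  refine card_le_card_of_injOn (fun x => e ∘ x) ?_ ?_
  · intro x hx
    have hx' : H (univ.image x) := (mem_filter.1 (mem_coe.1 hx)).2
    have hc := hH _ hx'
    have hinj : Function.Injective x := by
      have h2 : (univ.image x).card = (univ : Finset (Fin 3)).card := by
        rw [hc, card_univ, Fintype.card_fin]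
      have h3 := card_image_iff.1 h2
      exact fun a b hab => h3 (mem_coe.2 (mem_univ a)) (mem_coe.2 (mem_univ b)) hab
    unfold QR
    refine mem_coe.2 (mem_filter.2 ⟨mem_univ _, e.injective.comp hinj, ?_⟩)
    rw [mem_DD, image_image]
    have h4 : (e.symm : Fin n → V) ∘ (e ∘ x) = x := by
      funext a
      simp
    rw [h4]
    exact hx'
  · intro x _ y _ hxy
    funext a
    exact e.injective (congrFun hxy a)

/-- the sequences of six vertices without four independent ones -/
noncomputable def KK {V : Type} [Fintype V] (H : Finset V → Prop) : Finset (Fin 6 → V) :=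
  univ.filter fun K : Fin 6 → V => ∀ J : Finset (Fin 6), J.card = 4 →
    ∃ e ⊆ J, e.card = 3 ∧ H (e.image K)

theorem bad_le {V : Type} [Fintype V] {n : ℕ} (e : V ≃ Fin n) {H : Finset V → Prop}
    (hH : Unif 3 H) : (badm 4 7 (DD e H)).card ≤ (KK H).card * n := by
  have h1 : (badm 4 7 (DD e H)).card ≤ (KK H ×ˢ (univ : Finset (Fin n))).card := by
    refine card_le_card_of_injOn (fun φ => (fun i : Fin 6 => e.symm (φ (Fin.castSucc i)),
      φ (Fin.last 6))) ?_ ?_
    · intro φ hφ
      unfold badm at hφ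
      obtain ⟨-, hinj, hJ⟩ := mem_filter.1 (mem_coe.1 hφ)
      refine mem_coe.2 (mem_product.2 ⟨?_, mem_univ _⟩)
      unfold KK
      refine mem_filter.2 ⟨mem_univ _, fun J hJ4 => ?_⟩
      obtain ⟨X, hX, hXD⟩ := hJ (J.map Fin.castSuccEmb) (by rw [card_map, hJ4])
      obtain ⟨u, hu, rfl⟩ := subset_map_iff.1 hX
      refine ⟨u, hu, ?_, ?_⟩
      · have h2 := DD_card e hH hXD
        rw [card_image_of_injective _ hinj, card_map] at h2
        exact h2
      · have h2 := (mem_DD e H _).1 hXD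
        have h3 : ((u.map Fin.castSuccEmb).image φ).image e.symm =
            u.image fun i : Fin 6 => e.symm (φ (Fin.castSucc i)) := by
          rw [map_eq_image, image_image, image_image]
          rfl
        rw [h3] at h2
        exact h2
    · intro φ _ ψ _ hφψ
      have h2 := congrArg Prod.fst hφψ
      have h3 := congrArg Prod.snd hφψ
      funext i
      refine Fin.lastCases h3 (fun j => ?_) i
      exact e.symm.injective (congrFun h2 j)
  rw [card_product, card_univ, Fintype.card_fin] at h1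
  exact h1

theorem main : S_P6 := by
  intro hTR hSA Λ hΛ
  obtain ⟨δ, hδ, N0, hN0⟩ := hTR 3 2 4 (by norm_num) (by norm_num) hSA ((Λ - 3 / 4) / 2)
    (by linarith)
  refine ⟨δ, hδ, max N0 1, ?_⟩
  intro V _ _ H hH hN hden
  obtain ⟨n, hn⟩ : ∃ n, n = Fintype.card V := ⟨_, rfl⟩
  rw [← hn] at hN ⊢
  have e : V ≃ Fin n := hn ▸ Fintype.equivFin V
  have hn1 : 1 ≤ n := (le_max_right _ _).trans hN
  have hnp : (0 : ℝ) < n := by exact_mod_cast hn1
  have hT : ((badm 4 7 (DD e H)).card : ℝ) ≤ δ * (n : ℝ) ^ 7 →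
      ((DD e H).card : ℝ) ≤ (1 - 1 / ((2 : ℕ) : ℝ) ^ (3 - 1) + (Λ - 3 / 4) / 2) *
        (n.choose 3 : ℝ) :=
    hN0 n ((le_max_left _ _).trans hN) (DD e H) (fun Z hZ => DD_card e hH hZ)
  have h1 : δ * (n : ℝ) ^ 7 < ((badm 4 7 (DD e H)).card : ℝ) := by
    by_contra hcon
    push Not at hcon
    have h2 := hT hcon
    have h3 : (E 3 H : ℝ) ≤ 6 * ((DD e H).card : ℝ) := by exact_mod_cast E_le e hH
    have h4 : Λ * (n : ℝ) ^ 3 ≤ (E 3 H : ℝ) := by
      unfold den at hden
      rw [← hn, le_div_iff₀ (by positivity)] at hden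
      exact hden
    have h5 : (n.choose 3 : ℝ) ≤ (n : ℝ) ^ 3 / 6 := by
      have := Nat.choose_le_pow_div (α := ℝ) 3 n
      have h6 : ((Nat.factorial 3 : ℕ) : ℝ) = 6 := by
        have : Nat.factorial 3 = 6 := rfl
        rw [this]
        norm_num
      rwa [h6] at this
    have h6 : (1 - 1 / ((2 : ℕ) : ℝ) ^ (3 - 1) + (Λ - 3 / 4) / 2) = 3 / 8 + Λ / 2 := by
      norm_num
      ring
    rw [h6] at h2
    have h7 : (3 / 8 + Λ / 2) * (n.choose 3 : ℝ) ≤ (3 / 8 + Λ / 2) * ((n : ℝ) ^ 3 / 6) :=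
      mul_le_mul_of_nonneg_left h5 (by linarith)
    have h8 : 0 < (n : ℝ) ^ 3 := by positivity
    nlinarith
  have h2 : ((badm 4 7 (DD e H)).card : ℝ) ≤ ((KK H).card : ℝ) * n := by
    exact_mod_cast bad_le e hH
  have h3 : δ * (n : ℝ) ^ 6 * n < ((KK H).card : ℝ) * n := by
    calc δ * (n : ℝ) ^ 6 * n = δ * (n : ℝ) ^ 7 := by ring
      _ < _ := h1.trans_le h2
  have h4 := lt_of_mul_lt_mul_right h3 hnp.le
  exact h4.le

end Pool.Agent.N490.CT.P6
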